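import Pool.Agent.H76.AB.Stm

set_option autoImplicit false

/-! # Crew AB, parts SEQ1 and SEQ -/

namespace H12.AB

open SimpleGraph H76.AB

theorem conn_closed {W : Type} {T : SimpleGraph W} (hT : T.Connected) (S : Set W) (x : W)
    (hx : x ∈ S) (hcl : ∀ y ∈ S, ∀ z, T.Adj y z → z ∈ S) : ∀ y, y ∈ S := by
  intro y
  obtain ⟨p⟩ := hT.preconnected x y
  induction p with
  | nil => exact hx
  | cons h p ih => exact ih (hcl _ hx _ h)

theorem unique_parent {W : Type} {T : SimpleGraph W} (hT : T.IsTree) (x y z₁ z₂ : W)
    (h1 : T.Adj y z₁) (h2 : T.Adj y z₂) (d1 : T.dist x z₁ + 1 = T.dist x y)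
    (d2 : T.dist x z₂ + 1 = T.dist x y) : z₁ = z₂ := by
  obtain ⟨p, hp, hpl⟩ := hT.connected.exists_path_of_dist x z₁
  obtain ⟨q, hq, hql⟩ := hT.connected.exists_path_of_dist x z₂
  have hp' : (p.concat h1.symm).IsPath :=
    (p.concat h1.symm).isPath_of_length_eq_dist (by rw [Walk.length_concat, hpl, d1])
  have hq' : (q.concat h2.symm).IsPath :=
    (q.concat h2.symm).isPath_of_length_eq_dist (by rw [Walk.length_concat, hql, d2])
  have h := hT.isAcyclic.path_unique ⟨_, hp'⟩ ⟨_, hq'⟩
  have h' : p.concat h1.symm = q.concat h2.symm := congrArg Subtype.val h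
  obtain ⟨hv, -⟩ := Walk.concat_inj h'
  exact hv

theorem star_of_noedge {W : Type} {T : SimpleGraph W} (hT : T.Connected)
    (h : ∀ x y, ¬ T.Adj x y) : ¬ NotStar T := by
  intro hs
  apply hs
  obtain ⟨x⟩ := hT.nonempty
  refine ⟨x, fun y hy => ?_⟩
  exfalso
  exact hy (conn_closed hT {x} x rfl (fun y _ z hz => absurd hz (h _ _)) y)

theorem t_SEQ1 : S_SEQ1 := by
  intro W _ T hT
  refine ⟨?_, ?_, ?_, ?_⟩
  · rintro s t hl hst ⟨lam, h1, h2, h3⟩
    exact ⟨lam, fun x => hl ▸ h1 x, h2, fun x => (h3 x).trans (hst _)⟩
  · intro a r ha
    obtain ⟨x₀⟩ := hT.connected.nonempty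
    refine ⟨fun y => T.dist x₀ y % 2, ?_, ?_, ?_⟩
    · intro x
      have : T.dist x₀ x % 2 < 2 := Nat.mod_lt _ (by norm_num)
      simp only [List.length_cons]
      omega
    · intro x y hxy
      rcases hT.dist_eq_dist_add_one_of_adj x₀ hxy with h | h <;> simp only [h] <;> omega
    · intro x
      simp only
      rcases Nat.mod_two_eq_zero_or_one (T.dist x₀ x) with h | h
      · rw [h, List.getD_cons_zero]
        exact (Set.ncard_le_card _).trans ha
      · have : {y | T.Adj x y ∧ T.dist x₀ y % 2 = T.dist x₀ x % 2 + 1} = ∅ := by
          ext y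
          simp only [Set.mem_setOf_eq, Set.mem_empty_iff_false, iff_false, not_and]
          intro _ h3
          omega
        rw [this, Set.ncard_empty]
        exact Nat.zero_le _
  · intro n x hx
    refine ⟨fun y => n - T.dist x y, ?_, ?_, ?_⟩
    · intro y
      rw [List.length_replicate]
      exact Nat.sub_le _ _
    · intro y z hyz
      have h1 := hx y
      have h2 := hx z
      change n - T.dist x y = n - T.dist x z + 1 ∨ n - T.dist x z = n - T.dist x y + 1
      rcases hT.dist_eq_dist_add_one_of_adj x hyz with h | h <;> omega
    · intro y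
      simp only
      have h1 := hx y
      by_cases hy : T.dist x y = 0
      · have : {z | T.Adj y z ∧ n - T.dist x z = n - T.dist x y + 1} = ∅ := by
          ext z
          simp only [Set.mem_setOf_eq, Set.mem_empty_iff_false, iff_false, not_and]
          intro _ h3
          omega
        rw [this, Set.ncard_empty]
        exact Nat.zero_le _
      · have h2 : (List.replicate n 1).getD (n - T.dist x y) 0 = 1 := by
          rw [List.getD_eq_getElem?_getD, List.getElem?_replicate, if_pos (by omega)]
          rfl
        rw [h2]
        rw [Set.ncard_le_one_iff (Set.toFinite _)]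
        rintro z₁ z₂ ⟨ha, hb⟩ ⟨hc, hd⟩
        have h3 := hx z₁
        have h4 := hx z₂
        exact unique_parent hT x y z₁ z₂ ha hc (by omega) (by omega)
  · intro hs
    constructor
    · rintro ⟨lam, h1, h2, -⟩
      refine star_of_noedge hT.connected (fun x y hxy => ?_) hs
      have hx := h1 x
      have hy := h1 y
      simp only [List.length_nil] at hx hy
      rcases h2 x y hxy with h | h <;> omega
    · rintro ⟨lam, h1, h2, h3⟩
      by_cases hex : ∃ x, lam x = 1
      · obtain ⟨x, hx⟩ := hex
        apply hs
        refine ⟨x, fun y hy => ?_⟩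
        have hc := conn_closed hT.connected {y | y = x ∨ T.Adj x y} x (Or.inl rfl) (by
          rintro y (rfl | hy) z hz
          · exact Or.inr hz
          · left
            have hly : lam y = 0 := by
              have := h1 y
              simp only [List.length_cons, List.length_nil] at this
              rcases h2 x y hy with h | h <;> omega
            have hlz : lam z = 1 := by
              rcases h2 y z hz with h | h <;> omega
            have h4 := h3 y
            rw [hly, List.getD_cons_zero] at h4
            exact (Set.ncard_le_one_iff (Set.toFinite _)).mp h4 ⟨hz, by rw [hlz]⟩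
              ⟨hy.symm, by rw [hx]⟩) y
        rcases hc with h | h
        · exact absurd h hy
        · exact h
      · push Not at hex
        refine star_of_noedge hT.connected (fun x y hxy => ?_) hs
        have hx := h1 x
        have hy := h1 y
        have hx' := hex x
        have hy' := hex y
        simp only [List.length_cons, List.length_nil] at hx hy
        rcases h2 x y hxy with h | h <;> omega

theorem dist_lt_card {W : Type} [Finite W] {T : SimpleGraph W} (hT : T.Connected) (x y : W) :
    T.dist x y < Nat.card W := by
  classical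
  have := Fintype.ofFinite W
  obtain ⟨p, hp, hpl⟩ := hT.exists_path_of_dist x y
  rw [← hpl, Nat.card_eq_fintype_card]
  exact hp.length_lt

def Good {W : Type} (T : SimpleGraph W) (s : List ℕ) : Prop :=
  (∀ a ∈ s, 1 ≤ a) ∧ ¬ Emb T s ∧ ¬ Emb T (List.replicate s.length 1) ∧
    ∀ pre a suf, s = pre ++ a :: suf → Emb T ((a + 1) :: suf)

theorem getD_le_of_ones (s : List ℕ) (h : ∀ a ∈ s, 1 ≤ a) (i : ℕ) :
    (List.replicate s.length 1).getD i 0 ≤ s.getD i 0 := by
  induction s generalizing i with
  | nil => simp
  | cons a s ih =>
    cases i with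
    | zero =>
      simp only [List.length_cons, List.replicate_succ, List.getD_cons_zero]
      exact h a (List.mem_cons_self ..)
    | succ i =>
      simp only [List.length_cons, List.replicate_succ, List.getD_cons_succ]
      exact ih (fun b hb => h b (List.mem_cons_of_mem _ hb)) i

theorem t_SEQ (hSEQ1 : S_SEQ1) : S_SEQ := by
  intro W _ T hT hs
  classical
  obtain ⟨h1, h2, h3, h4⟩ := hSEQ1 W T hT
  obtain ⟨h5, h6⟩ := h4 hs
  have key : ∀ n : ℕ, (∃ s, Good T s ∧ s.length = n) ∨ ∃ s, Good T s ∧ Emb T (1 :: s) := by
    intro n
    induction n with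
    | zero =>
      left
      refine ⟨[], ⟨by simp, h5, h5, ?_⟩, rfl⟩
      intro pre a suf h
      simp at h
    | succ n ih =>
      rcases ih with ⟨s, hg, hl⟩ | h
      · by_cases he : Emb T (1 :: s)
        · exact Or.inr ⟨s, hg, he⟩
        · left
          obtain ⟨g1, g2, g3, g4⟩ := hg
          have hex : ∃ b, Emb T (b :: s) := ⟨Nat.card W, h2 _ s le_rfl⟩
          have hb := Nat.find_spec hex
          have hb0 : Nat.find hex ≠ 0 := by
            intro h0
            rw [h0] at hb
            apply he
            refine h1 (0 :: s) (1 :: s) rfl ?_ hb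
            intro i
            cases i <;> simp
          have hb1 : Nat.find hex ≠ 1 := by
            intro h0
            rw [h0] at hb
            exact he hb
          obtain ⟨a, ha⟩ : ∃ a, Nat.find hex = a + 1 := ⟨Nat.find hex - 1, by omega⟩
          have hn : ¬ Emb T (a :: s) := Nat.find_min hex (by omega)
          rw [ha] at hb
          refine ⟨a :: s, ⟨?_, hn, ?_, ?_⟩, by rw [List.length_cons, hl]⟩
          · intro b hb'
            rcases List.mem_cons.mp hb' with rfl | hb'
            · omega
            · exact g1 b hb'
          · intro hr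
            apply he
            refine h1 _ (1 :: s) (by simp) ?_ hr
            intro i
            have := getD_le_of_ones (1 :: s) (by
              intro b hb'
              rcases List.mem_cons.mp hb' with rfl | hb'
              · exact le_rfl
              · exact g1 b hb') i
            simpa using this
          · intro pre c suf h
            cases pre with
            | nil =>
              simp only [List.nil_append, List.cons.injEq] at h
              obtain ⟨rfl, rfl⟩ := h
              exact hb
            | cons d pre =>
              simp only [List.cons_append, List.cons.injEq] at h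
              exact g4 pre c suf h.2
      · exact Or.inr h
  have hfin : ∃ s, Good T s ∧ Emb T (1 :: s) := by
    rcases key (Nat.card W) with ⟨s, hg, hl⟩ | h
    · exfalso
      obtain ⟨x⟩ := hT.connected.nonempty
      apply hg.2.2.1
      exact h3 s.length x fun y => (dist_lt_card hT.connected x y).le.trans hl.ge
    · exact h
  obtain ⟨s, ⟨g1, g2, g3, g4⟩, he⟩ := hfin
  refine ⟨s, ?_, g1, g2, g3, he, g4⟩
  rintro rfl
  exact h6 he

end H12.AB
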